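import Pool.Agent.Q28.HD.Defs
import Pool.Agent.Q28.LF.Main

/-!
# Tests for Bloch's conjecture on products: calculations
-/

open CategoryTheory AlgebraicGeometry

universe u v w

namespace Pool.Agent.Q28.HD

open Pool.Agent.H914 Pool.Agent.H914.VarClass Pool.Agent.H914.VarClass.Obj Pool.Agent.W492.BB
  Pool.Agent.W550.Corr Pool.Agent.TH133 Pool.Agent.Q28.LF

set_option linter.unusedSectionVars false

variable {k : Type u} [Field k] {𝒱 : VarClass k} {C : TheoryData.{u, v, 0} 𝒱 ℚ}
  [hC : IsChowProj C] {X Y Z W T B D V : 𝒱.Obj} {i j l : ℤ}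

lemma comp_ext_left (a : C.A X) (b : C.A Y) (Δ : C.A (Y.prod Z)) :
    C.comp (C.ext a b) Δ = C.ext a (C.act Δ b) := by
  rw [comp_eq_extR, C.extR_ext]
  intro c
  exact ch_comm C _ _

lemma comp_ext_right (Γ : C.A (X.prod Y)) (a : C.A Y) (b : C.A Z) :
    C.comp Γ (C.ext a b) = C.ext (C.act (tp C Γ) a) b := by
  have h : tp C (C.comp Γ (C.ext a b)) = C.ext b (C.act (tp C Γ) a) := by
    rw [tp_comp C (ch_comm C), tp_ext, comp_ext_left]
  rw [← tp_tp C (C.comp Γ (C.ext a b)), h, tp_ext]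

lemma comp_memI {Γ : C.A (X.prod Y)} {Δ : C.A (Y.prod Z)} (hΓ : Γ ∈ C.gr (X.prod Y) i)
    (hΔ : Δ ∈ C.gr (Y.prod Z) j) : C.comp Γ Δ ∈ C.gr (X.prod Z) (i + j - Y.dim) := by
  have h1 : Γ ∈ C.gr (X.prod Y) ((X.dim : ℤ) + (i - X.dim)) := by
    have e : (X.dim : ℤ) + (i - X.dim) = i := by ring
    rwa [e]
  have h2 : Δ ∈ C.gr (Y.prod Z) ((Y.dim : ℤ) + (j - Y.dim)) := by
    have e : (Y.dim : ℤ) + (j - Y.dim) = j := by ring
    rwa [e]
  have h3 := comp_mem C h1 h2
  have e : (X.dim : ℤ) + (i - X.dim + (j - Y.dim)) = i + j - Y.dim := by ring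
  rwa [e] at h3

lemma act_memI {Γ : C.A (X.prod Y)} {x : C.A X} (hΓ : Γ ∈ C.gr (X.prod Y) i)
    (hx : x ∈ C.gr X j) : C.act Γ x ∈ C.gr Y (i + j - X.dim) := by
  have h1 : Γ ∈ C.gr (X.prod Y) ((X.dim : ℤ) + (i - X.dim)) := by
    have e : (X.dim : ℤ) + (i - X.dim) = i := by ring
    rwa [e]
  have h2 := act_mem' C h1 hx
  have e : j + (i - X.dim) = i + j - X.dim := by ring
  rwa [e] at h2

lemma comp_smul' (q : ℚ) (Γ : C.A (X.prod Y)) (Δ : C.A (Y.prod Z)) :
    C.comp Γ (q • Δ) = q • C.comp Γ Δ := (compL C (X := X) (Y := Y) (Z := Z) Γ).map_smul q Δ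

lemma smul_comp' (q : ℚ) (Γ : C.A (X.prod Y)) (Δ : C.A (Y.prod Z)) :
    C.comp (q • Γ) Δ = q • C.comp Γ Δ := by
  have h1 := congrArg (fun L => L Δ) ((compL C (X := X) (Y := Y) (Z := Z)).map_smul q Γ)
  exact h1

/-! ### Sums of external products -/

lemma ext_mem_split {a : C.A X} {b : C.A Y} (ha : a ∈ C.gr X j) (hb : b ∈ C.gr Y (i - j)) :
    C.ext a b ∈ split C X Y i := Submodule.subset_span ⟨j, a, b, ha, hb, rfl⟩

/-- Induction for sums of external products. -/
lemma split_induction {P : C.A (X.prod Y) → Prop} {Γ : C.A (X.prod Y)} (hΓ : Γ ∈ split C X Y i)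
    (h0 : P 0) (hadd : ∀ x y, P x → P y → P (x + y)) (hsmul : ∀ (q : ℚ) x, P x → P (q • x))
    (hext : ∀ (j : ℤ) (a : C.A X) (b : C.A Y), a ∈ C.gr X j → b ∈ C.gr Y (i - j) →
      P (C.ext a b)) : P Γ := by
  rw [split] at hΓ
  induction hΓ using Submodule.span_induction with
  | mem x hx =>
    obtain ⟨j, a, b, ha, hb, rfl⟩ := hx
    exact hext j a b ha hb
  | zero => exact h0
  | add x y _ _ hx hy => exact hadd x y hx hy
  | smul a x _ hx => exact hsmul a x hx

lemma split_le : split C X Y i ≤ C.gr (X.prod Y) i := by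
  intro Γ hΓ
  refine split_induction (P := fun Γ => Γ ∈ C.gr (X.prod Y) i) hΓ (Submodule.zero_mem _) (fun _ _ => Submodule.add_mem _)
    (fun q _ => Submodule.smul_mem _ q) fun j a b ha hb => ?_
  have := ext_mem' (C := C) ha hb
  have e : j + (i - j) = i := by ring
  rwa [e] at this

lemma split_comp {Γ : C.A (X.prod Y)} (hΓ : Γ ∈ split C X Y i) {Δ : C.A (Y.prod Z)}
    (hΔ : Δ ∈ C.gr (Y.prod Z) j) : C.comp Γ Δ ∈ split C X Z (i + j - Y.dim) := by
  refine split_induction (P := fun Γ => C.comp Γ Δ ∈ split C X Z (i + j - Y.dim)) hΓ ?_ ?_ ?_ fun l a b ha hb => ?_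
  · rw [zero_comp]; exact Submodule.zero_mem _
  · intro x y hx hy; rw [add_comp]; exact Submodule.add_mem _ hx hy
  · intro q x hx; rw [smul_comp']; exact Submodule.smul_mem _ _ hx
  · rw [comp_ext_left]
    refine ext_mem_split ha ?_
    have := act_memI hΔ hb
    have e : j + (i - l) - (Y.dim : ℤ) = i + j - Y.dim - l := by ring
    rwa [e] at this

lemma comp_split {Δ : C.A (Y.prod Z)} (hΔ : Δ ∈ split C Y Z j) {Γ : C.A (X.prod Y)}
    (hΓ : Γ ∈ C.gr (X.prod Y) i) : C.comp Γ Δ ∈ split C X Z (i + j - Y.dim) := by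
  refine split_induction (P := fun Δ => C.comp Γ Δ ∈ split C X Z (i + j - Y.dim)) hΔ ?_ ?_ ?_ fun l a b ha hb => ?_
  · rw [comp_zero]; exact Submodule.zero_mem _
  · intro x y hx hy; rw [comp_add]; exact Submodule.add_mem _ hx hy
  · intro q x hx; rw [comp_smul']; exact Submodule.smul_mem _ _ hx
  · rw [comp_ext_right]
    have h1 := act_memI (tp_mem C hΓ) ha
    refine ext_mem_split h1 ?_
    have e : i + j - (Y.dim : ℤ) - (i + l - Y.dim) = j - l := by ring
    rwa [e]

lemma tp_split {Γ : C.A (X.prod Y)} (hΓ : Γ ∈ split C X Y i) : tp C Γ ∈ split C Y X i := by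
  refine split_induction (P := fun Γ => tp C Γ ∈ split C Y X i) hΓ ?_ ?_ ?_ fun l a b ha hb => ?_
  · rw [tp_zero]; exact Submodule.zero_mem _
  · intro x y hx hy; rw [tp_add]; exact Submodule.add_mem _ hx hy
  · intro q x hx; rw [tp_smul]; exact Submodule.smul_mem _ _ hx
  · rw [tp_ext]
    refine ext_mem_split hb ?_
    have e : i - (i - l) = l := by ring
    rwa [e]

/-! ### Small correspondences -/

lemma small_induction {P : C.A (X.prod Y) → Prop} {Γ : C.A (X.prod Y)} (hΓ : Γ ∈ small C X Y i)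
    (h0 : P 0) (hadd : ∀ x y, P x → P y → P (x + y)) (hsmul : ∀ (q : ℚ) x, P x → P (q • x))
    (hsplit : ∀ x ∈ split C X Y i, P x)
    (hcur : ∀ (B : 𝒱.Obj) (j : ℤ) (α : C.A (X.prod B)) (β : C.A (B.prod Y)), B.dim = 1 →
      α ∈ C.gr (X.prod B) j → β ∈ C.gr (B.prod Y) (i + 1 - j) → P (C.comp α β)) : P Γ := by
  rw [small] at hΓ
  induction hΓ using Submodule.span_induction with
  | mem x hx =>
    rcases hx with hx | ⟨B, j, α, β, hB, hα, hβ, rfl⟩
    · exact hsplit x hx
    · exact hcur B j α β hB hα hβ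
  | zero => exact h0
  | add x y _ _ hx hy => exact hadd x y hx hy
  | smul a x _ hx => exact hsmul a x hx

lemma split_le_small : split C X Y i ≤ small C X Y i := fun _ h => Submodule.subset_span (Or.inl h)

lemma cur_mem_small (hB : B.dim = 1) {α : C.A (X.prod B)} {β : C.A (B.prod Y)}
    (hα : α ∈ C.gr (X.prod B) j) (hβ : β ∈ C.gr (B.prod Y) (i + 1 - j)) :
    C.comp α β ∈ small C X Y i := Submodule.subset_span (Or.inr ⟨B, j, α, β, hB, hα, hβ, rfl⟩)

lemma small_le : small C X Y i ≤ C.gr (X.prod Y) i := by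
  intro Γ hΓ
  refine small_induction (P := fun Γ => Γ ∈ C.gr (X.prod Y) i) hΓ (Submodule.zero_mem _) (fun _ _ => Submodule.add_mem _)
    (fun q _ => Submodule.smul_mem _ q) (fun x hx => split_le hx) fun B j α β hB hα hβ => ?_
  have := comp_memI hα hβ
  have e : j + (i + 1 - j) - (B.dim : ℤ) = i := by rw [hB]; push_cast; ring
  rwa [e] at this

lemma small_comp {Γ : C.A (X.prod Y)} (hΓ : Γ ∈ small C X Y i) {Δ : C.A (Y.prod Z)}
    (hΔ : Δ ∈ C.gr (Y.prod Z) j) : C.comp Γ Δ ∈ small C X Z (i + j - Y.dim) := by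
  refine small_induction (P := fun Γ => C.comp Γ Δ ∈ small C X Z (i + j - Y.dim)) hΓ ?_ ?_ ?_ ?_ fun B l α β hB hα hβ => ?_
  · rw [zero_comp]; exact Submodule.zero_mem _
  · intro x y hx hy; rw [add_comp]; exact Submodule.add_mem _ hx hy
  · intro q x hx; rw [smul_comp']; exact Submodule.smul_mem _ _ hx
  · intro x hx; exact split_le_small (split_comp hx hΔ)
  · rw [comp_assoc]
    refine cur_mem_small hB hα ?_
    have := comp_memI hβ hΔ
    have e : i + 1 - l + j - (Y.dim : ℤ) = i + j - Y.dim + 1 - l := by ring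
    rwa [e] at this

lemma comp_small {Δ : C.A (Y.prod Z)} (hΔ : Δ ∈ small C Y Z j) {Γ : C.A (X.prod Y)}
    (hΓ : Γ ∈ C.gr (X.prod Y) i) : C.comp Γ Δ ∈ small C X Z (i + j - Y.dim) := by
  refine small_induction (P := fun Δ => C.comp Γ Δ ∈ small C X Z (i + j - Y.dim)) hΔ ?_ ?_ ?_ ?_ fun B l α β hB hα hβ => ?_
  · rw [comp_zero]; exact Submodule.zero_mem _
  · intro x y hx hy; rw [comp_add]; exact Submodule.add_mem _ hx hy
  · intro q x hx; rw [comp_smul']; exact Submodule.smul_mem _ _ hx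
  · intro x hx; exact split_le_small (comp_split hx hΓ)
  · rw [← comp_assoc]
    have h1 := comp_memI hΓ hα
    refine cur_mem_small hB h1 ?_
    have e : i + j - (Y.dim : ℤ) + 1 - (i + l - Y.dim) = j + 1 - l := by ring
    rwa [e]

lemma tp_small {Γ : C.A (X.prod Y)} (hΓ : Γ ∈ small C X Y i) : tp C Γ ∈ small C Y X i := by
  refine small_induction (P := fun Γ => tp C Γ ∈ small C Y X i) hΓ ?_ ?_ ?_ ?_ fun B l α β hB hα hβ => ?_
  · rw [tp_zero]; exact Submodule.zero_mem _
  · intro x y hx hy; rw [tp_add]; exact Submodule.add_mem _ hx hy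
  · intro q x hx; rw [tp_smul]; exact Submodule.smul_mem _ _ hx
  · intro x hx; exact split_le_small (tp_split hx)
  · rw [tp_comp C (ch_comm C)]
    refine cur_mem_small hB (tp_mem C hβ) ?_
    have e : i + 1 - (i + 1 - l) = l := by ring
    rw [e]; exact tp_mem C hα

/-! ### Homologically trivial correspondences between small ones -/

variable {K : Type w} [Field K] {H : WeilTheoryData.{u, v, w} C K} [hH : IsWeilProj H]

lemma cl_comp0 {Γ : C.A (X.prod Y)} (h : H.cl Γ = 0) (Δ : C.A (Y.prod Z)) :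
    H.cl (C.comp Γ Δ) = 0 := by
  rw [cl_comp, h]
  exact zero_comp H.toTheoryData _

lemma comp_cl0 (Γ : C.A (X.prod Y)) {Δ : C.A (Y.prod Z)} (h : H.cl Δ = 0) :
    H.cl (C.comp Γ Δ) = 0 := by
  rw [cl_comp, h]
  exact comp_zero H.toTheoryData _

/-- Homologically trivial classes on a product of two curves are sums of external products. -/
lemma curve_split (hX : IsComplex C H) {B' : 𝒱.Obj} (hB : B.dim = 1) (hB' : B'.dim = 1)
    {δ : C.A (B.prod B')} (hδ : δ ∈ C.gr (B.prod B') i) (h : H.cl δ = 0) :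
    δ ∈ split C B B' i := by
  rcases lt_or_ge i 0 with h0 | h0
  · rw [C.gr_neg _ _ h0, Submodule.mem_bot] at hδ
    rw [hδ]; exact Submodule.zero_mem _
  rcases lt_or_ge 2 i with h2 | h2
  · rw [hC.gr_top _ _ _ hδ (by rw [dim_prod, hB, hB']; push_cast; omega)]
    exact Submodule.zero_mem _
  have h3 : i = 0 ∨ i = 1 ∨ i = 2 := by omega
  rcases h3 with rfl | rfl | rfl
  · obtain ⟨q, rfl⟩ := hC.gr_zero _ _ hδ
    have h4 : H.cl ((algebraMap ℚ (C.A (B.prod B'))) q) = 0 := by
      rw [Algebra.algebraMap_eq_smul_one]; exact h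
    have hq : q = 0 := by
      by_contra hne
      have h5 : (1 : H.A (B.prod B')) = 0 := by
        rw [← map_one H.cl]
        have h6 : (1 : C.A (B.prod B')) = (algebraMap ℚ _ q⁻¹) * (algebraMap ℚ _ q) := by
          rw [← map_mul, inv_mul_cancel₀ hne, map_one]
        rw [h6, map_mul, h4, mul_zero]
      exact hH.one_ne_zero _ h5
    rw [hq, zero_smul]; exact Submodule.zero_mem _
  · exact hX.curves B B' δ hB hB' hδ h
  · have h5 := hX.points B B' δ (by rw [dim_prod, hB, hB']; exact hδ)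
    refine Submodule.span_le.2 ?_ h5
    rintro g ⟨x, y, hx, hy, rfl⟩
    refine ext_mem_split (j := 1) (by rw [hB] at hx; exact hx) ?_
    rw [hB'] at hy
    have e : (2 : ℤ) - 1 = (1 : ℕ) := by norm_num
    rw [e]; exact hy

/-- A homologically trivial correspondence between two small ones gives a sum of external
products. -/
lemma small_hom_small (hX : IsComplex C H) {Γ : C.A (X.prod Y)} (hΓ : Γ ∈ small C X Y i)
    {h : C.A (Y.prod Z)} (hh : h ∈ C.gr (Y.prod Z) j) (h0 : H.cl h = 0) {Δ : C.A (Z.prod W)}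
    (hΔ : Δ ∈ small C Z W l) :
    C.comp (C.comp Γ h) Δ ∈ split C X W (i + j - Y.dim + l - Z.dim) := by
  refine small_induction
    (P := fun Γ => C.comp (C.comp Γ h) Δ ∈ split C X W (i + j - Y.dim + l - Z.dim)) hΓ ?_ ?_ ?_ ?_ fun B m α β hB hα hβ => ?_
  · rw [zero_comp, zero_comp]; exact Submodule.zero_mem _
  · intro x y hx hy; rw [add_comp, add_comp]; exact Submodule.add_mem _ hx hy
  · intro q x hx; rw [smul_comp', smul_comp']; exact Submodule.smul_mem _ _ hx
  · intro x hx; exact split_comp (split_comp hx hh) (small_le hΔ)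
  have hβh := comp_memI hβ hh
  refine small_induction (P := fun Δ => C.comp (C.comp (C.comp α β) h) Δ ∈
    split C X W (i + j - Y.dim + l - Z.dim)) hΔ ?_ ?_ ?_ ?_ fun B' m' α' β' hB' hα' hβ' => ?_
  · rw [comp_zero]; exact Submodule.zero_mem _
  · intro x y hx hy; rw [comp_add]; exact Submodule.add_mem _ hx hy
  · intro q x hx; rw [comp_smul']; exact Submodule.smul_mem _ _ hx
  · intro x hx
    refine comp_split hx ?_
    have h1 := comp_memI (small_le (cur_mem_small hB hα hβ)) hh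
    exact h1
  · have hδ := comp_memI hβh hα'
    have hδ0 : H.cl (C.comp (C.comp β h) α') = 0 := cl_comp0 (comp_cl0 β h0) α'
    have hs := curve_split hX hB hB' hδ hδ0
    have h1 := split_comp (comp_split hs hα) hβ'
    have e1 : C.comp (C.comp (C.comp α β) h) (C.comp α' β') =
        C.comp (C.comp α (C.comp (C.comp β h) α')) β' := by
      simp only [comp_assoc]
    rw [e1]
    have e2 : m + (i + 1 - m + j - (Y.dim : ℤ) + m' - Z.dim) - B.dim + (l + 1 - m') - B'.dim =
        i + j - Y.dim + l - Z.dim := by rw [hB, hB']; push_cast; ring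
    rwa [e2] at h1

/-- An element of the wrong degree has degree zero. -/
lemma hasDegree_of_ne {x : C.A X} (hx : x ∈ C.gr X i) (hi : i ≠ X.dim) : HasDegree C x 0 := by
  intro Z
  rw [zero_smul]
  rcases lt_or_gt_of_ne hi with h | h
  · constructor
    · have h2 := C.push_mem (snd X Z) (C.pull_mem (fst X Z) hx)
      rw [C.gr_neg Z _ (by rw [dim_prod]; push_cast; omega)] at h2
      exact (Submodule.mem_bot _).1 h2
    · have h2 := C.push_mem (fst Z X) (C.pull_mem (snd Z X) hx)
      rw [C.gr_neg Z _ (by rw [dim_prod]; push_cast; omega)] at h2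
      exact (Submodule.mem_bot _).1 h2
  · rw [hC.gr_top X i _ hx h, map_zero, map_zero, map_zero, map_zero]
    exact ⟨rfl, rfl⟩

/-- A homologically trivial correspondence between two sums of external products gives zero. -/
lemma split_hom_split {Γ : C.A (X.prod Y)} (hΓ : Γ ∈ split C X Y i) {h : C.A (Y.prod Z)}
    (hh : h ∈ C.gr (Y.prod Z) j) (h0 : H.cl h = 0) {Δ : C.A (Z.prod W)}
    (hΔ : Δ ∈ split C Z W l) : C.comp (C.comp Γ h) Δ = 0 := by
  refine split_induction (P := fun Γ => C.comp (C.comp Γ h) Δ = 0) hΓ ?_ ?_ ?_ fun m a b ha hb => ?_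
  · rw [zero_comp, zero_comp]
  · intro x y hx hy; rw [add_comp, add_comp, hx, hy, add_zero]
  · intro q x hx; rw [smul_comp', smul_comp', hx, smul_zero]
  refine split_induction (P := fun Δ => C.comp (C.comp (C.ext a b) h) Δ = 0) hΔ ?_ ?_ ?_
    fun m' a' b' ha' hb' => ?_
  · rw [comp_zero]
  · intro x y hx hy; rw [comp_add, hx, hy, add_zero]
  · intro q x hx; rw [comp_smul', hx, smul_zero]
  have h1 : C.act h b * a' ∈ C.gr Z (j + (i - m) - Y.dim + m') := C.mul_mem (act_memI hh hb) ha'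
  have h2 : HasDegree C (C.act h b * a') 0 := by
    by_cases hd : j + (i - m) - (Y.dim : ℤ) + m' = Z.dim
    · rw [hd] at h1
      refine hasDegree_zero_of_cl (H := H) h1 ?_
      have h3 : H.cl (C.act h b) = 0 := by
        rw [cl_act, h0]
        exact map_zero (H.toTheoryData.actL (H.cl h)) |> fun _ => H.toTheoryData.act_zero _
      rw [map_mul, h3, zero_mul]
    · exact hasDegree_of_ne h1 hd
  rw [comp_ext_left, comp_ext_ext h2, zero_smul]

/-- Nilpotence of homologically trivial small self-correspondences. -/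
lemma small_nilpotent (hX : IsComplex C H) {F : C.A (X.prod X)} (hF : F ∈ small C X X X.dim)
    (h0 : H.cl F = 0) :
    C.comp (C.comp (C.comp (C.comp F F) F) F) (C.comp (C.comp F F) F) = 0 := by
  have h1 := small_hom_small hX hF (small_le hF) h0 hF
  have e : (X.dim : ℤ) + X.dim - X.dim + X.dim - X.dim = X.dim := by ring
  rw [e] at h1
  exact split_hom_split h1 (small_le hF) h0 h1

end Pool.Agent.Q28.HD
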