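import Pool.Agent.Q28.LF.Defs

/-!
# Tests for Bloch's conjecture on products: definitions
-/

open CategoryTheory AlgebraicGeometry

universe u v w

namespace Pool.Agent.Q28.HD

open Pool.Agent.H914 Pool.Agent.H914.VarClass Pool.Agent.H914.VarClass.Obj Pool.Agent.W492.BB
  Pool.Agent.W550.Corr Pool.Agent.TH133 Pool.Agent.Q28.LF

variable {k : Type u} [Field k] {𝒱 : VarClass k} (C : TheoryData.{u, v, 0} 𝒱 ℚ)

/-- The classes of codimension `i` on `Y × T` which are sums of external products `a × b`. -/
noncomputable def split (Y T : 𝒱.Obj) (i : ℤ) : Submodule ℚ (C.A (Y.prod T)) :=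
  Submodule.span ℚ {Γ | ∃ (j : ℤ) (a : C.A Y) (b : C.A T), C.Deg j a ∧ C.Deg (i - j) b ∧
    Γ = C.mul (C.up (fst Y T) a) (C.up (snd Y T) b)}

/-- The classes of codimension `i` on `Y × T` which are sums of external products and of
compositions `Y → B → T` of correspondences through curves `B`. -/
noncomputable def small (Y T : 𝒱.Obj) (i : ℤ) : Submodule ℚ (C.A (Y.prod T)) :=
  Submodule.span ℚ {Γ | Γ ∈ split C Y T i ∨
    ∃ (B : 𝒱.Obj) (j : ℤ) (α : C.A (Y.prod B)) (β : C.A (B.prod T)), B.dim = 1 ∧ C.Deg j α ∧
      C.Deg (i + 1 - j) β ∧ Γ = C.comp α β}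

/-- Well-known properties of the Chow groups of varieties over the complex numbers: the principle
of Bloch and Srinivas; the zero-cycles of a product are sums of external products of zero-cycles;
divisors on a product `X × Y` are sums of divisors on the factors and of divisors which factor
through a curve (theory of Albanese and Picard varieties); homologically trivial divisors on a
product of two curves are sums of divisors on the factors. -/
structure IsComplex {K : Type w} [Field K] (H : WeilTheoryData.{u, v, w} C K) : Prop where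
  blochSrinivas : BlochSrinivas C
  points : ∀ (X Y : 𝒱.Obj) (z : C.A (X.prod Y)), C.Deg (X.prod Y).dim z →
    z ∈ Submodule.span ℚ {g | ∃ (x : C.A X) (y : C.A Y), C.Deg X.dim x ∧ C.Deg Y.dim y ∧
      g = C.mul (C.up (fst X Y) x) (C.up (snd X Y) y)}
  divisors : ∀ (X Y : 𝒱.Obj) (δ : C.A (X.prod Y)), C.Deg 1 δ → δ ∈ small C X Y 1
  curves : ∀ (B B' : 𝒱.Obj) (δ : C.A (B.prod B')), B.dim = 1 → B'.dim = 1 → C.Deg 1 δ →
    H.cl δ = 0 → δ ∈ split C B B' 1

/-- The self-correspondence `f` of `X` is finite-dimensional on the cycles of dimension `i`: it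
agrees there with a sum of external products and of correspondences through curves. -/
def FiniteDimOn {X : 𝒱.Obj} (f : C.A (X.prod X)) (i : ℕ) : Prop :=
  ∃ κ ∈ small C X X X.dim, ∀ z : C.A X, C.Deg ((X.dim : ℤ) - i) z → C.act f z = C.act κ z

/-- The motive `(V, p)` is self-dual of nonzero rank: `p` is a symmetric idempotent
self-correspondence of degree zero of `V`, and the degree of the product of `p` with the diagonal is
not zero. -/
def IsTest (V : 𝒱.Obj) (p : C.A (V.prod V)) : Prop :=
  C.Deg V.dim p ∧ C.comp p p = p ∧ C.up (Obj.lift (snd V V) (fst V V)) p = p ∧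
    ∃ t : ℚ, t ≠ 0 ∧ HasDegree C (C.up (Obj.lift (𝟙 V) (𝟙 V)) p) t

variable {C} {K : Type w} [Field K] (H : WeilTheoryData.{u, v, w} C K)

/-- The cohomology of `X` is algebraic and `π` is a phantom part of `X`: `π` is a homologically
trivial self-correspondence of degree zero, and the class of the diagonal minus `π` is a sum of
external products. Such a `π` exists if and only if the class of the diagonal is homologically
equivalent to a sum of external products, for complex surfaces if and only if `p_g = q = 0`. -/
structure IsPhantom (X : 𝒱.Obj) (π : C.A (X.prod X)) : Prop where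
  deg : C.Deg X.dim π
  hom : H.cl π = 0
  splits : dg C X - π ∈ split C X X X.dim

/-- A test on a product: there are a self-dual motive `(V, p)` of nonzero rank and a number `c` with
`2 c + 1 ≥ dim X + dim V` such that `π × p` is finite-dimensional on the cycles of dimension
less than `c` on `X × V`. -/
def TestHolds {X : 𝒱.Obj} (π : C.A (X.prod X)) : Prop :=
  ∃ (V : 𝒱.Obj) (p : C.A (V.prod V)) (c : ℕ), IsTest C V p ∧ X.dim + V.dim ≤ 2 * c + 1 ∧
    ∀ i < c, FiniteDimOn C (X := X.prod V) (tens C π p) i

end Pool.Agent.Q28.HD
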