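import Pool.Agent.Q28.HD.Basic

/-!
# Tests for Bloch's conjecture on products: proofs
-/

open CategoryTheory AlgebraicGeometry

universe u v w

namespace Pool.Agent.Q28.HD

open Pool.Agent.H914 Pool.Agent.H914.VarClass Pool.Agent.H914.VarClass.Obj Pool.Agent.W492.BB
  Pool.Agent.W550.Corr Pool.Agent.TH133 Pool.Agent.Q28.LF

set_option linter.unusedSectionVars false

variable {k : Type u} [Field k] {𝒱 : VarClass k} {C : TheoryData.{u, v, 0} 𝒱 ℚ}
  [hC : IsChowProj C] {X Y Z W T B D V E : 𝒱.Obj} {i j l : ℤ}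
  {K : Type w} [Field K] {H : WeilTheoryData.{u, v, w} C K} [hH : IsWeilProj H]

/-- Correspondences of degree zero which factor through varieties of dimension `d`. -/
noncomputable def thr (C : TheoryData.{u, v, 0} 𝒱 ℚ) (X Y : 𝒱.Obj) (d : ℕ) :
    Submodule ℚ (C.A (X.prod Y)) :=
  Submodule.span ℚ {Γ | ∃ (D : 𝒱.Obj) (b : C.A (X.prod D)) (a : C.A (D.prod Y)), D.dim = d ∧
    b ∈ C.gr (X.prod D) X.dim ∧ a ∈ C.gr (D.prod Y) D.dim ∧ Γ = C.comp b a}

lemma dg_mem_thr (X : 𝒱.Obj) {f : C.A (X.prod X)} (hf : f ∈ C.gr (X.prod X) X.dim) :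
    f ∈ thr C X X X.dim :=
  Submodule.subset_span ⟨X, dg C X, f, rfl, dg_mem C X, hf, (dg_comp C f).symm⟩

/-- One step of the descent. -/
lemma step (hX : IsComplex C H) {f : C.A (X.prod X)} (hf : f ∈ C.gr (X.prod X) X.dim)
    {c : ℕ} (hc : c < X.dim) (hfd : FiniteDimOn C f c) {u : C.A (X.prod X)}
    (h : u ∈ thr C X X (X.dim - c) ⊔ small C X X X.dim) :
    C.comp u f ∈ thr C X X (X.dim - (c + 1)) ⊔ small C X X X.dim := by
  obtain ⟨κ', hκ', hz⟩ := hfd
  obtain ⟨g, hg, κ, hκ, rfl⟩ := Submodule.mem_sup.1 h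
  have key : ∀ g ∈ thr C X X (X.dim - c),
      C.comp g f ∈ thr C X X (X.dim - (c + 1)) ⊔ small C X X X.dim := by
    intro g hg
    rw [thr] at hg
    induction hg using Submodule.span_induction with
    | mem x hx =>
      obtain ⟨D, b, a, hD, hb, ha, rfl⟩ := hx
      have hκm := small_le hκ'
      have h1 : C.comp a (f - κ') ∈ C.gr (D.prod X) D.dim := by
        have := comp_memI ha (Submodule.sub_mem _ hf hκm)
        have e : (D.dim : ℤ) + X.dim - X.dim = D.dim := by ring
        rwa [e] at this
      have h2 : ∀ z : C.A D, C.Deg D.dim z → C.act (C.comp a (f - κ')) z = 0 := by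
        intro z hzd
        rw [C.act_comp, C.act_sub, hz, sub_self]
        have h3 := act_memI ha hzd
        have e : (D.dim : ℤ) + D.dim - D.dim = (X.dim : ℤ) - c := by
          rw [hD]; push_cast [Nat.cast_sub hc.le]; ring
        rwa [e] at h3
      have h3 := hX.blochSrinivas D X D.dim _ h1 h2
      have e1 : C.comp (C.comp b a) f = C.comp b (C.comp a (f - κ')) +
          C.comp (C.comp b a) κ' := by
        rw [comp_assoc, comp_assoc, ← comp_add, ← comp_add, sub_add_cancel]
      rw [e1]
      refine Submodule.add_mem_sup ?_ ?_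
      · generalize C.comp a (f - κ') = γ at h3
        induction h3 using Submodule.span_induction with
        | mem x hx =>
          obtain ⟨D', β, α, hD', hβ, hα, rfl⟩ := hx
          refine Submodule.subset_span ⟨D', C.comp b β, α, by omega, ?_, ?_,
            (comp_assoc C _ _ _).symm⟩
          · have := comp_memI hb hβ
            have e : (X.dim : ℤ) + D.dim - D.dim = X.dim := by ring
            rwa [e] at this
          · have e : ((D.dim : ℤ) - 1) = D'.dim := by omega
            rwa [← e]
        | zero => rw [comp_zero]; exact Submodule.zero_mem _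
        | add x y _ _ hx hy => rw [comp_add]; exact Submodule.add_mem _ hx hy
        | smul q x _ hx => rw [comp_smul']; exact Submodule.smul_mem _ _ hx
      · have h4 : C.comp b a ∈ C.gr (X.prod X) X.dim := by
          have := comp_memI hb ha
          have e : (X.dim : ℤ) + D.dim - D.dim = X.dim := by ring
          rwa [e] at this
        have := comp_small hκ' h4
        have e : (X.dim : ℤ) + X.dim - X.dim = X.dim := by ring
        rwa [e] at this
    | zero => rw [zero_comp]; exact Submodule.zero_mem _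
    | add x y _ _ hx hy => rw [add_comp]; exact Submodule.add_mem _ hx hy
    | smul q x _ hx => rw [smul_comp']; exact Submodule.smul_mem _ _ hx
  have h1 : C.comp κ f ∈ small C X X X.dim := by
    have := small_comp hκ hf
    have e : (X.dim : ℤ) + X.dim - X.dim = X.dim := by ring
    rwa [e] at this
  rw [add_comp]
  exact Submodule.add_mem _ (key g hg) (Submodule.mem_sup_right h1)

/-- The compositions `f ∘ ⋯ ∘ f` (`m + 1` factors). -/
noncomputable def cpow (f : C.A (X.prod X)) : ℕ → C.A (X.prod X)
  | 0 => f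
  | m + 1 => C.comp (cpow f m) f

lemma descent (hX : IsComplex C H) {f : C.A (X.prod X)} (hf : f ∈ C.gr (X.prod X) X.dim)
    (c : ℕ) (hc : c ≤ X.dim) (hfd : ∀ i < c, FiniteDimOn C f i) :
    cpow f c ∈ thr C X X (X.dim - c) ⊔ small C X X X.dim := by
  induction c with
  | zero => exact Submodule.mem_sup_left (dg_mem_thr X hf)
  | succ c ih =>
    exact step hX hf (by omega) (hfd c (by omega)) (ih (by omega) fun i hi => hfd i (by omega))

lemma cpow_mem {f : C.A (X.prod X)} (hf : f ∈ C.gr (X.prod X) X.dim) (m : ℕ) :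
    cpow f m ∈ C.gr (X.prod X) X.dim := by
  induction m with
  | zero => exact hf
  | succ m ih =>
    have := comp_memI ih hf
    have e : (X.dim : ℤ) + X.dim - X.dim = X.dim := by ring
    rwa [e] at this

/-- The half-dimension lemma. -/
lemma half (hX : IsComplex C H) {f : C.A (X.prod X)} (hf : f ∈ C.gr (X.prod X) X.dim) {d : ℕ}
    (hd : 2 * d ≤ X.dim + 1) (h : f ∈ thr C X X d ⊔ small C X X X.dim) :
    C.comp f (tp C f) ∈ small C X X X.dim := by
  have eX : (X.dim : ℤ) + X.dim - X.dim = X.dim := by ring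
  obtain ⟨g, hg, κ, hκ, hgκ⟩ := Submodule.mem_sup.1 h
  have hgm : g ∈ C.gr (X.prod X) X.dim := by
    have : g = f - κ := by rw [← hgκ, add_sub_cancel_right]
    rw [this]; exact Submodule.sub_mem _ hf (small_le hκ)
  have key : ∀ g ∈ thr C X X d, ∀ g' ∈ thr C X X d, C.comp g (tp C g') ∈ small C X X X.dim := by
    intro g hg g' hg'
    rw [thr] at hg hg'
    induction hg using Submodule.span_induction with
    | mem x hx =>
      obtain ⟨D, b, a, hD, hb, ha, rfl⟩ := hx
      induction hg' using Submodule.span_induction with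
      | mem x hx =>
        obtain ⟨D', b', a', hD', hb', ha', rfl⟩ := hx
        have h1 := comp_memI ha (tp_mem C ha')
        have h2 : C.comp a (tp C a') ∈ small C D D' ((D.dim : ℤ) + D'.dim - X.dim) := by
          rcases lt_or_ge ((D.dim : ℤ) + D'.dim - X.dim) 0 with h0 | h0
          · rw [C.gr_neg _ _ h0, Submodule.mem_bot] at h1
            rw [h1]; exact Submodule.zero_mem _
          have h3 : (D.dim : ℤ) + D'.dim - X.dim = 0 ∨ (D.dim : ℤ) + D'.dim - X.dim = 1 := by
            omega
          rcases h3 with h3 | h3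
          · rw [h3] at h1 ⊢
            obtain ⟨q, hq⟩ := hC.gr_zero _ _ h1
            rw [hq]
            refine split_le_small (Submodule.smul_mem _ q ?_)
            have := ext_mem_split (C := C) (i := 0) (C.one_mem D) (b := (1 : C.A D'))
              (by rw [sub_zero]; exact C.one_mem D')
            rw [TheoryData.ext, map_one, map_one, one_mul] at this
            exact this
          · rw [h3] at h1 ⊢
            exact hX.divisors _ _ _ h1
        have h3 := small_comp (comp_small h2 hb) (tp_mem C hb')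
        have e1 : C.comp (C.comp b a) (tp C (C.comp b' a')) =
            C.comp (C.comp b (C.comp a (tp C a'))) (tp C b') := by
          rw [tp_comp C (ch_comm C)]; simp only [comp_assoc]
        rw [e1]
        have e2 : (X.dim : ℤ) + ((D.dim : ℤ) + D'.dim - X.dim) - D.dim + X.dim - D'.dim =
            X.dim := by ring
        rwa [e2] at h3
      | zero => rw [tp_zero, comp_zero]; exact Submodule.zero_mem _
      | add x y _ _ hx hy => rw [tp_add, comp_add]; exact Submodule.add_mem _ hx hy
      | smul q x _ hx => rw [tp_smul, comp_smul']; exact Submodule.smul_mem _ _ hx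
    | zero => rw [zero_comp]; exact Submodule.zero_mem _
    | add x y _ _ hx hy => rw [add_comp]; exact Submodule.add_mem _ hx hy
    | smul q x _ hx => rw [smul_comp']; exact Submodule.smul_mem _ _ hx
  have h1 := key g hg g hg
  have h2 := comp_small (tp_small hκ) hgm
  have h3 := small_comp hκ (tp_mem C hf)
  rw [eX] at h2 h3
  have e1 : C.comp f (tp C f) = C.comp g (tp C g) + C.comp g (tp C κ) + C.comp κ (tp C f) := by
    rw [← comp_add, ← tp_add, hgκ, ← add_comp, hgκ]
  rw [e1]
  exact Submodule.add_mem _ (Submodule.add_mem _ h1 h2) h3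

/-- The seventh power. -/
noncomputable def seven (F : C.A (X.prod X)) : C.A (X.prod X) :=
  C.comp (C.comp (C.comp (C.comp F F) F) F) (C.comp (C.comp F F) F)

/-- Nilpotence. -/
lemma seven_zero (hX : IsComplex C H) {f : C.A (X.prod X)} (hf : f ∈ C.gr (X.prod X) X.dim)
    (h0 : H.cl f = 0) {c : ℕ} (hc : X.dim ≤ 2 * c + 1)
    (hfd : ∀ i < c, FiniteDimOn C f i) :
    ∃ m, seven (C.comp (cpow f m) (tp C (cpow f m))) = 0 := by
  obtain ⟨c', h1, h2, h3⟩ : ∃ c', c' ≤ c ∧ c' ≤ X.dim ∧ 2 * (X.dim - c') ≤ X.dim + 1 :=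
    ⟨X.dim / 2, by omega, by omega, by omega⟩
  have h4 := descent hX hf c' h2 fun i hi => hfd i (by omega)
  have h5 : H.cl (cpow f c') = 0 := by
    cases c' with
    | zero => exact h0
    | succ m => exact comp_cl0 _ h0
  exact ⟨c', small_nilpotent hX (half hX (cpow_mem hf c') h3 h4) (cl_comp0 h5 _)⟩

/-! ### Reduction modulo sums of external products -/

/-- `Γ` is the diagonal modulo sums of external products. -/
def Unip (Γ : C.A (X.prod X)) : Prop := dg C X - Γ ∈ split C X X X.dim

lemma Unip.comp {Γ Δ : C.A (X.prod X)} (h1 : Unip Γ) (h2 : Unip Δ) : Unip (C.comp Γ Δ) := by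
  have e : dg C X - C.comp Γ Δ = (dg C X - Γ) + (dg C X - Δ) -
      C.comp (dg C X - Γ) (dg C X - Δ) := by
    rw [comp_sub, sub_comp, sub_comp, dg_comp, dg_comp, comp_dg]; abel
  have h3 := split_comp h1 (split_le h2)
  have e1 : (X.dim : ℤ) + X.dim - X.dim = X.dim := by ring
  rw [e1] at h3
  rw [Unip, e]
  exact Submodule.sub_mem _ (Submodule.add_mem _ h1 h2) h3

lemma Unip.tp {Γ : C.A (X.prod X)} (h1 : Unip Γ) : Unip (tp C Γ) := by
  have h2 := tp_split h1
  rw [tp_sub, tp_dg] at h2
  exact h2

lemma Unip.seven {Γ : C.A (X.prod X)} (h : Unip Γ) : Unip (seven Γ) :=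
  (((h.comp h).comp h).comp h).comp ((h.comp h).comp h)

lemma Unip.cpow {Γ : C.A (X.prod X)} (h : Unip Γ) (m : ℕ) : Unip (cpow Γ m) := by
  induction m with
  | zero => exact h
  | succ m ih => exact ih.comp h

lemma split_of_unip_zero (h : Unip (0 : C.A (X.prod X))) : dg C X ∈ split C X X X.dim := by
  rwa [Unip, sub_zero] at h

/-! ### The partial trace -/

lemma zero_of_tens {Γ : C.A (X.prod Y)} {p : C.A (V.prod V)} {t : ℚ} (ht : t ≠ 0)
    (hp : HasDegree C (C.pull (Obj.lift (𝟙 V) (𝟙 V)) p) t) (h : tens C Γ p = 0) : Γ = 0 := by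
  let δ : (X.prod Y).prod V ⟶ (X.prod V).prod (Y.prod V) :=
    Obj.lift (Obj.lift (fst (X.prod Y) V ≫ fst X Y) (snd (X.prod Y) V))
      (Obj.lift (fst (X.prod Y) V ≫ snd X Y) (snd (X.prod Y) V))
  have e1 : δ ≫ prodMap (fst X V) (fst Y V) = fst (X.prod Y) V := by
    apply prod_ext <;> simp [δ, prodMap, comp_lift]
  have e2 : δ ≫ prodMap (snd X V) (snd Y V) = snd (X.prod Y) V ≫ Obj.lift (𝟙 V) (𝟙 V) := by
    apply prod_ext <;> simp [δ, prodMap, comp_lift]
  have h1 : C.pull δ (tens C Γ p) = C.pull (fst (X.prod Y) V) Γ *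
      C.pull (snd (X.prod Y) V) (C.pull (Obj.lift (𝟙 V) (𝟙 V)) p) := by
    rw [tens, map_mul, ← C.pull_comp, ← C.pull_comp, e1, e2, C.pull_comp]
  rw [h, map_zero] at h1
  have h2 := congrArg (C.push (fst (X.prod Y) V)) h1
  rw [map_zero, C.proj_left, (hp (X.prod Y)).2, mul_smul_comm, mul_one] at h2
  rcases smul_eq_zero.1 h2.symm with h3 | h3
  · exact absurd h3 ht
  · exact h3

lemma seven_tens {G : C.A (X.prod X)} {p : C.A (V.prod V)} (hp : C.comp p p = p) :
    seven (X := X.prod V) (tens C G p) = tens C (seven G) p := by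
  rw [seven, seven, tens_comp', tens_comp', tens_comp', tens_comp', hp, hp, hp, hp]

lemma cpow_tens {G : C.A (X.prod X)} {p : C.A (V.prod V)} (hp : C.comp p p = p) (m : ℕ) :
    cpow (X := X.prod V) (tens C G p) m = tens C (cpow G m) p := by
  induction m with
  | zero => rfl
  | succ m ih => rw [cpow, ih, tens_comp', hp]; rfl

/-- A test implies that the diagonal is a sum of external products. -/
theorem split_of_test (hX : IsComplex C H) {π : C.A (X.prod X)} (hπ : IsPhantom H X π)
    (h : TestHolds π) : dg C X ∈ split C X X X.dim := by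
  obtain ⟨V, p, c, ⟨hp, hpp, hps, t, ht, hpt⟩, hc, hfd⟩ := h
  have hps' : tp C p = p := hps
  have h1 : tens C π p ∈ C.gr ((X.prod V).prod (X.prod V)) (X.prod V).dim := by
    have := tens_mem C hπ.deg hp
    rw [dim_prod]; push_cast; exact this
  have h3 : H.cl (tens C π p) = 0 := by
    rw [cl_tens, hπ.hom]
    rw [tens, map_zero, zero_mul]
  obtain ⟨m, h4⟩ := seven_zero hX h1 h3 (c := c) (by rw [dim_prod]; omega) hfd
  rw [cpow_tens hpp, tp_tens, hps', tens_comp', hpp, seven_tens hpp] at h4
  have h5 := zero_of_tens ht hpt h4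
  have h6 : Unip (cpow π m) := Unip.cpow hπ.splits m
  have h7 := (h6.comp h6.tp).seven
  rw [h5] at h7
  exact split_of_unip_zero h7

/-! ### The curve -/

/-- The projector `Δ - o × E - E × o` of a curve. -/
noncomputable def curveP (o : C.A E) : C.A (E.prod E) :=
  dg C E - C.ext o (1 : C.A E) - C.ext (1 : C.A E) o

lemma curve_test (hE : E.dim = 1) {o : C.A E} (ho : o ∈ C.gr E 1) (hoD : HasDegree C o 1)
    (hχ : ¬ HasDegree C (C.pull (Obj.lift (𝟙 E) (𝟙 E)) (dg C E)) 2) :
    IsTest C E (curveP o) := by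
  have h11 : HasDegree C ((1 : C.A E) * 1) 0 := by
    rw [mul_one]
    exact hasDegree_of_ne (C.one_mem E) (by rw [hE]; norm_num)
  have hoo : HasDegree C (o * o) 0 := hasDegree_of_ne (C.mul_mem ho ho) (by rw [hE]; norm_num)
  have ho1 : HasDegree C (o * 1) 1 := by rwa [mul_one]
  have h1o : HasDegree C (1 * o) 1 := by rwa [one_mul]
  refine ⟨?_, ?_, ?_, ?_⟩
  · have h1 : C.ext o (1 : C.A E) ∈ C.gr (E.prod E) E.dim := by
      have := ext_mem' (C := C) ho (C.one_mem E)
      rw [hE]; exact this
    have h2 : C.ext (1 : C.A E) o ∈ C.gr (E.prod E) E.dim := by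
      have := ext_mem' (C := C) (C.one_mem E) ho
      rw [hE]; rw [zero_add] at this; exact this
    exact Submodule.sub_mem _ (Submodule.sub_mem _ (dg_mem C E) h1) h2
  · rw [curveP]
    simp only [comp_sub, sub_comp, dg_comp, comp_dg, comp_ext_ext h11, comp_ext_ext hoo,
      comp_ext_ext ho1, comp_ext_ext h1o]
    simp only [zero_smul, one_smul]
    abel
  · change tp C (curveP o) = curveP o
    rw [curveP, tp_sub, tp_sub, tp_dg, tp_ext, tp_ext]
    abel
  · have hm : C.pull (Obj.lift (𝟙 E) (𝟙 E)) (dg C E) ∈ C.gr E E.dim := C.pull_mem _ (dg_mem C E)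
    obtain ⟨q, hq⟩ := exists_hasDegree (C := C) hm
    refine ⟨q - 2, ?_, ?_⟩
    · intro h
      have : q = 2 := by linarith
      rw [this] at hq; exact hχ hq
    · have e1 : C.pull (Obj.lift (𝟙 E) (𝟙 E)) (C.ext o (1 : C.A E)) = o := by
        rw [TheoryData.ext, map_mul, ← C.pull_comp, ← C.pull_comp, lift_fst, lift_snd, C.pull_id,
          C.pull_id, mul_one]
      have e2 : C.pull (Obj.lift (𝟙 E) (𝟙 E)) (C.ext (1 : C.A E) o) = o := by
        rw [TheoryData.ext, map_mul, ← C.pull_comp, ← C.pull_comp, lift_fst, lift_snd, C.pull_id,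
          C.pull_id, one_mul]
      have e3 : C.up (Obj.lift (𝟙 E) (𝟙 E)) (curveP o) =
          C.pull (Obj.lift (𝟙 E) (𝟙 E)) (dg C E) - o - o := by
        change C.pull _ _ = _
        rw [curveP, map_sub, map_sub, e1, e2]
      rw [e3]
      intro Z
      constructor
      · rw [map_sub, map_sub, map_sub, map_sub, (hq Z).1, (hoD Z).1, ← sub_smul, ← sub_smul]
        congr 1; ring
      · rw [map_sub, map_sub, map_sub, map_sub, (hq Z).2, (hoD Z).2, ← sub_smul, ← sub_smul]
        congr 1; ring

lemma hasDegree_sub {x y : C.A X} {q r : ℚ} (hx : HasDegree C x q) (hy : HasDegree C y r) :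
    HasDegree C (x - y) (q - r) := by
  intro Z
  constructor
  · rw [map_sub, map_sub, (hx Z).1, (hy Z).1, sub_smul]
  · rw [map_sub, map_sub, (hx Z).2, (hy Z).2, sub_smul]

lemma hasDegree_smul {x : C.A X} {q : ℚ} (r : ℚ) (hx : HasDegree C x q) :
    HasDegree C (r • x) (r * q) := by
  intro Z
  constructor
  · rw [map_smul, map_smul, (hx Z).1, smul_smul]
  · rw [map_smul, map_smul, (hx Z).2, smul_smul]

/-- Sums of external products kill zero-cycles of degree zero. -/
lemma split_act_zero {Γ : C.A (X.prod Y)} (hΓ : Γ ∈ split C X Y i) {z : C.A X}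
    (hz : ZeroCycle C X z) : C.act Γ z = 0 := by
  refine split_induction (P := fun Γ => C.act Γ z = 0) hΓ (C.act_zero z) ?_ ?_
    fun j a b ha hb => ?_
  · intro x y hx hy; rw [C.act_add, hx, hy, add_zero]
  · intro q x hx; rw [LF.act_smul', hx, smul_zero]
  · by_cases hj : j = 0
    · subst hj
      obtain ⟨q, rfl⟩ := hC.gr_zero _ _ ha
      have h1 : HasDegree C (q • (1 : C.A X) * z) 0 := by
        rw [smul_mul_assoc, one_mul]
        have := hasDegree_smul q hz.2
        rwa [mul_zero] at this
      rw [act_ext' h1, zero_smul]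
    · have h1 : a * z ∈ C.gr X (j + X.dim) := C.mul_mem ha hz.1
      exact act_ext_zero_of_lt h1 (by omega)

/-- Surfaces. -/
theorem main_surface (hX : IsComplex C H) (hE : E.dim = 1)
    (hχ : ¬ HasDegree C (C.pull (Obj.lift (𝟙 E) (𝟙 E)) (dg C E)) 2) {π : C.A (X.prod X)}
    (hπ : IsPhantom H X π) (hX2 : X.dim = 2) :
    [∀ z : C.A X, ZeroCycle C X z → z = 0,
      dg C X ∈ split C X X 2,
      ∀ (z : C.A X) (a : C.A E), ZeroCycle C X z → ZeroCycle C E a →
        C.mul (C.up (fst X E) z) (C.up (snd X E) a) = 0,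
      ∃ κ ∈ small C (X.prod E) (X.prod E) 3, ∀ (z : C.A X) (a : C.A E), ZeroCycle C X z →
        ZeroCycle C E a → C.mul (C.up (fst X E) z) (C.up (snd X E) a) =
          C.act κ (C.mul (C.up (fst X E) z) (C.up (snd X E) a)),
      TestHolds π].TFAE := by
  have hdim : ((X.prod E).dim : ℤ) = 3 := by rw [dim_prod, hX2, hE]; norm_num
  have hs : split C X X (X.dim : ℤ) = split C X X 2 := by rw [hX2]; rfl
  obtain ⟨o, ho, ho1, ho2⟩ := hC.exists_deg_one E
  have hoD : HasDegree C o 1 :=
    fun Z => ⟨by rw [one_smul]; exact ho2 Z, by rw [one_smul]; exact ho1 Z⟩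
  have ho' : o ∈ C.gr E 1 := by rw [hE] at ho; exact ho
  -- the image of zero-cycles under the phantom part
  have hπz : ∀ z : C.A X, z ∈ C.gr X X.dim → ZeroCycle C X (C.act π z) := by
    intro z hz
    have h1 : C.act π z ∈ C.gr X X.dim := by
      have := act_memI hπ.deg hz
      have e : (X.dim : ℤ) + X.dim - X.dim = X.dim := by ring
      rwa [e] at this
    refine ⟨h1, hasDegree_zero_of_cl (H := H) h1 ?_⟩
    rw [cl_act, hπ.hom]
    exact H.toTheoryData.act_zero _
  tfae_have 1 → 3 := by
    intro h z a hz _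
    rw [h z hz]
    change C.pull _ 0 * _ = 0
    rw [map_zero, zero_mul]
  tfae_have 3 → 4 := by
    intro h
    refine ⟨0, Submodule.zero_mem _, fun z a hz ha => ?_⟩
    rw [h z a hz ha, C.act_zero]
  tfae_have 2 → 1 := by
    intro h z hz
    have := split_act_zero h hz
    rwa [act_dg] at this
  tfae_have 1 → 2 := by
    intro h
    have h1 : ∀ i < 1, FiniteDimOn C π i := by
      intro i hi
      refine ⟨0, Submodule.zero_mem _, fun z hz => ?_⟩
      have hz' : z ∈ C.gr X X.dim := by
        have : i = 0 := by omega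
        subst this
        simpa using hz
      rw [h _ (hπz z hz'), C.act_zero]
    obtain ⟨m, h2⟩ := seven_zero hX hπ.deg hπ.hom (c := 1) (by omega) h1
    have h6 : Unip (cpow π m) := Unip.cpow hπ.splits m
    have h7 := (h6.comp h6.tp).seven
    rw [h2] at h7
    rw [← hs]
    exact split_of_unip_zero h7
  tfae_have 4 → 5 := by
    rintro ⟨κ, hκ, hz⟩
    refine ⟨E, curveP o, 1, curve_test hE ho' hoD hχ, by omega, fun i hi => ?_⟩
    have hi0 : i = 0 := by omega
    subst hi0
    have hp : curveP o ∈ C.gr (E.prod E) E.dim := (curve_test hE ho' hoD hχ).1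
    have hf : tens C π (curveP o) ∈ C.gr ((X.prod E).prod (X.prod E)) 3 := by
      have := tens_mem C hπ.deg hp
      rw [hX2, hE] at this; exact this
    refine ⟨C.comp (tens C π (curveP o)) κ, ?_, fun z hzd => ?_⟩
    · have := comp_small hκ hf
      have e : (3 : ℤ) + 3 - (X.prod E).dim = (X.prod E).dim := by rw [hdim]; norm_num
      rwa [e] at this
    · have hz' : z ∈ C.gr (X.prod E) (X.prod E).dim := by simpa using hzd
      have h1 := hX.points X E z hz'
      clear hz' hzd
      induction h1 using Submodule.span_induction with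
      | mem x hx =>
        obtain ⟨x, y, hx, hy, rfl⟩ := hx
        have h2 : C.act (tens C π (curveP o)) (C.ext x y) =
            C.ext (C.act π x) (C.act (curveP o) y) := by
          apply act_tens_ext
          intro V f c
          exact ch_comm C _ _
        have hy1 : y ∈ C.gr E 1 := by rw [hE] at hy; exact hy
        obtain ⟨q, hq⟩ := exists_hasDegree (C := C) hy
        have h3 : C.act (curveP o) y = y - q • o := by
          rw [curveP, C.act_sub, C.act_sub, act_dg, act_ext_zero_of_lt (C.mul_mem ho' hy1)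
            (by rw [hE]; norm_num), act_ext' (q := q) (by rw [one_mul]; exact hq), sub_zero]
        have h4 : ZeroCycle C E (C.act (curveP o) y) := by
          rw [h3]
          refine ⟨Submodule.sub_mem _ hy (Submodule.smul_mem _ q ho), ?_⟩
          have := hasDegree_sub hq (hasDegree_smul q hoD)
          rwa [mul_one, sub_self] at this
        have h5 := hz _ _ (hπz x hx) h4
        rw [C.act_comp]
        change C.act (tens C π (curveP o)) (C.ext x y) =
          C.act κ (C.act (tens C π (curveP o)) (C.ext x y))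
        rw [h2]
        exact h5
      | zero => rw [C.act_map_zero, C.act_map_zero]
      | add x y _ _ hx hy => rw [act_map_add, act_map_add, hx, hy]
      | smul q x _ hx => rw [act_map_smul, act_map_smul, hx]
  tfae_have 5 → 2 := by
    intro h
    rw [← hs]
    exact split_of_test hX hπ h
  tfae_finish

end Pool.Agent.Q28.HD
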